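import Pool.Agent.Lib.MP_425be5_nt.Defs
import Mathlib

-- part Pool.Agent.Lib.MP_425be5_nt.CF
section

/-!
Continued fraction facts: the sizes `D k`, the shifted denominators `Q k`, and finiteness of the
set of complete quotients of a quadratic irrational.
-/

namespace Pool.Agent.Lib.MP_425be5_nt

variable {ξ : ℝ}

theorem irr_cq (h : Irrational ξ) : ∀ k, Irrational (cq ξ k)
  | 0 => h
  | k + 1 => by
    have h1 := irr_cq h k
    have h2 : Irrational (Int.fract (cq ξ k)) := by
      rw [Int.fract]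
      exact h1.sub_intCast _
    exact h2.inv

theorem fract_pos' (h : Irrational ξ) (k : ℕ) : 0 < Int.fract (cq ξ k) := by
  rcases (Int.fract_nonneg (cq ξ k)).lt_or_eq with h1 | h1
  · exact h1
  · exfalso
    have h2 : cq ξ k = (⌊cq ξ k⌋ : ℝ) := by
      have := Int.floor_add_fract (cq ξ k)
      linarith
    exact (irr_cq h k).ne_int _ h2

theorem one_lt_cq (h : Irrational ξ) (k : ℕ) : 1 < cq ξ (k + 1) := by
  have h1 := fract_pos' h k
  have h2 := Int.fract_lt_one (cq ξ k)
  show 1 < (Int.fract (cq ξ k))⁻¹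
  exact one_lt_inv_iff₀.mpr ⟨h1, h2⟩

theorem one_le_pq (h : Irrational ξ) (k : ℕ) : 1 ≤ pq ξ (k + 1) := by
  have := one_lt_cq h k
  exact Nat.le_floor (by simpa using this.le)

theorem fract_cq_succ (h : Irrational ξ) (k : ℕ) :
    Int.fract (cq ξ (k + 1)) = cq ξ (k + 1) - pq ξ (k + 1) := by
  have h1 : (0 : ℝ) ≤ cq ξ (k + 1) := by linarith [one_lt_cq h k]
  rw [pq, natCast_floor_eq_intCast_floor h1, Int.fract]

/-- `D 0 = 1` and `D (k+1) = |q_k ξ - p_k|`. -/
noncomputable def D (ξ : ℝ) : ℕ → ℝ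
  | 0 => 1
  | k + 1 => D ξ k * Int.fract (cq ξ k)

theorem D_pos (h : Irrational ξ) : ∀ k, 0 < D ξ k
  | 0 => one_pos
  | k + 1 => mul_pos (D_pos h k) (fract_pos' h k)

theorem D_succ_lt (h : Irrational ξ) (k : ℕ) : D ξ (k + 1) < D ξ k := by
  have h1 := D_pos h k
  have h2 := Int.fract_lt_one (cq ξ k)
  show D ξ k * Int.fract (cq ξ k) < D ξ k
  nlinarith

theorem D_le_one (h : Irrational ξ) : ∀ k, D ξ k ≤ 1
  | 0 => le_rfl
  | k + 1 => (D_succ_lt h k).le.trans (D_le_one h k)

theorem D_mul_cq (h : Irrational ξ) (k : ℕ) : D ξ (k + 1) * cq ξ (k + 1) = D ξ k := by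
  have h1 := fract_pos' h k
  show D ξ k * Int.fract (cq ξ k) * (Int.fract (cq ξ k))⁻¹ = D ξ k
  field_simp

theorem D_rec (h : Irrational ξ) (k : ℕ) :
    D ξ k = pq ξ (k + 1) * D ξ (k + 1) + D ξ (k + 2) := by
  have h1 : D ξ (k + 2) = D ξ (k + 1) * Int.fract (cq ξ (k + 1)) := rfl
  rw [h1, fract_cq_succ h, mul_sub, D_mul_cq h]
  ring

/-- Shifted denominators: `Q 0 = q_(-1) = 0` and `Q (k+1) = q_k`. -/
noncomputable def Q (ξ : ℝ) : ℕ → ℕ
  | 0 => 0
  | k + 1 => den ξ k

theorem Q_zero : Q ξ 0 = 0 := rfl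
theorem Q_one : Q ξ 1 = 1 := rfl

theorem Q_rec (k : ℕ) : Q ξ (k + 2) = pq ξ (k + 1) * Q ξ (k + 1) + Q ξ k := by
  cases k with
  | zero => simp [Q, den]
  | succ k => simp [Q, den]

theorem Q_le_succ (h : Irrational ξ) : ∀ k, Q ξ k ≤ Q ξ (k + 1)
  | 0 => by simp [Q_zero]
  | k + 1 => by
    rw [Q_rec]
    have := one_le_pq h k
    nlinarith

theorem Q_pos (h : Irrational ξ) : ∀ k, 1 ≤ Q ξ (k + 1)
  | 0 => by simp [Q_one]
  | k + 1 => (Q_pos h k).trans (Q_le_succ h (k + 1))

theorem le_Q (h : Irrational ξ) : ∀ k, k ≤ Q ξ (k + 1)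
  | 0 => by simp
  | 1 => Q_pos h 1
  | k + 2 => by
    have h1 := le_Q h (k + 1)
    have h2 := Q_pos h k
    have h3 := one_le_pq h (k + 1)
    rw [Q_rec]
    nlinarith

theorem QD (h : Irrational ξ) : ∀ k, (Q ξ (k + 1) : ℝ) * D ξ k + Q ξ k * D ξ (k + 1) = 1
  | 0 => by simp [Q_zero, Q_one, D]
  | k + 1 => by
    have h1 := QD h k
    have h2 := D_rec h k
    rw [Q_rec]
    push_cast
    rw [h2] at h1
    linarith

/-- Shifted numerators. -/
noncomputable def P (ξ : ℝ) : ℕ → ℤ
  | 0 => 1
  | 1 => ⌊ξ⌋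
  | k + 2 => pq ξ (k + 1) * P ξ (k + 1) + P ξ k

theorem Q_mul (h : Irrational ξ) : ∀ k, (Q ξ k : ℝ) * ξ = P ξ k - (-1) ^ k * D ξ k
  | 0 => by simp [Q_zero, P, D]
  | 1 => by simp [Q_one, P, D, cq]
  | k + 2 => by
    have h1 := Q_mul h k
    have h2 := Q_mul h (k + 1)
    have h3 := D_rec h k
    rw [Q_rec]
    simp only [P]
    push_cast
    rw [add_mul, mul_assoc, h1, h2, h3]
    ring

theorem finite_roots (a b c : ℤ) (ha : a ≠ 0) :
    {x : ℝ | (a : ℝ) * x ^ 2 + b * x + c = 0}.Finite := by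
  have hp : (Polynomial.C (a : ℝ) * Polynomial.X ^ 2 + Polynomial.C (b : ℝ) * Polynomial.X
      + Polynomial.C (c : ℝ)) ≠ 0 := by
    intro h0
    have := congrArg (fun p => Polynomial.coeff p 2) h0
    simp only [Polynomial.coeff_add, Polynomial.coeff_C_mul, Polynomial.coeff_X_pow,
      Polynomial.coeff_X, Polynomial.coeff_C, Polynomial.coeff_zero] at this
    simp at this
    exact ha this
  refine (Polynomial.finite_setOfPred_isRoot hp).subset ?_
  intro x hx
  simpa [Polynomial.IsRoot] using hx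

/-- Lagrange: a quadratic irrational has finitely many complete quotients. -/
theorem finite_cq (h : Irrational ξ) (a b c : ℤ) (ha : a ≠ 0)
    (hq : (a : ℝ) * ξ ^ 2 + b * ξ + c = 0) :
    (Set.range fun k => cq ξ (k + 1)).Finite := by
  set κ : ℝ := 2 * a * ξ + b with hκ
  obtain ⟨K, hK⟩ := exists_nat_ge (|κ| + 2 * |(a : ℝ)|)
  have hfin : (⋃ a' ∈ Set.Icc (-(K : ℤ)) K \ {0}, ⋃ b' ∈ Set.Icc (-(K : ℤ)) K,
      ⋃ c' ∈ Set.Icc (-(K : ℤ)) K,
      {x : ℝ | ((a' : ℤ) : ℝ) * x ^ 2 + (b' : ℤ) * x + (c' : ℤ) = 0}).Finite := by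
    refine Set.Finite.biUnion ((Set.finite_Icc _ _).subset Set.sdiff_subset) ?_
    intro a' ha'
    refine Set.Finite.biUnion (Set.finite_Icc _ _) ?_
    intro b' _
    refine Set.Finite.biUnion (Set.finite_Icc _ _) ?_
    intro c' _
    exact finite_roots _ _ _ ha'.2
  refine hfin.subset ?_
  rintro _ ⟨k, rfl⟩
  simp only [Set.mem_iUnion]
  set e : ℝ := (-1) ^ k with he
  have he2 : e * e = 1 := by rw [he, ← pow_add, ← two_mul, pow_mul]; simp
  have heabs : |e| = 1 := by rw [he, abs_pow]; simp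
  have h0 := Q_mul h k
  have h1 := Q_mul h (k + 1)
  rw [pow_succ] at h1
  rw [← he] at h0 h1
  have hP0 : (P ξ k : ℝ) = Q ξ k * ξ + e * D ξ k := by linarith
  have hP1 : (P ξ (k + 1) : ℝ) = Q ξ (k + 1) * ξ - e * D ξ (k + 1) := by linarith
  have hQD := QD h k
  have hD0 := D_pos h k
  have hD1 := D_pos h (k + 1)
  have hD01 := D_succ_lt h k
  have hDle := D_le_one h k
  have hQ0 : (0 : ℝ) ≤ Q ξ k := by positivity
  have hQ1 : (1 : ℝ) ≤ Q ξ (k + 1) := by exact_mod_cast Q_pos h k
  have hQ01 : (Q ξ k : ℝ) ≤ Q ξ (k + 1) := by exact_mod_cast Q_le_succ h k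
  have hx := D_mul_cq h k
  set q0 : ℝ := (Q ξ k : ℝ)
  set q1 : ℝ := (Q ξ (k + 1) : ℝ)
  set d0 : ℝ := D ξ k
  set d1 : ℝ := D ξ (k + 1)
  have hc : (c : ℝ) = -(a * ξ ^ 2 + b * ξ) := by linarith
  have hA : ((a * P ξ (k + 1) ^ 2 + b * P ξ (k + 1) * Q ξ (k + 1) + c * Q ξ (k + 1) ^ 2 : ℤ) : ℝ)
      = -(e * (q1 * d1) * κ) + a * (d1 * d1) := by
    push_cast
    rw [hP1, hc, hκ]
    linear_combination (a * d1 * d1) * he2
  have hC : ((a * P ξ k ^ 2 + b * P ξ k * Q ξ k + c * Q ξ k ^ 2 : ℤ) : ℝ)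
      = e * (q0 * d0) * κ + a * (d0 * d0) := by
    push_cast
    rw [hP0, hc, hκ]
    linear_combination (a * d0 * d0) * he2
  have hB : ((2 * a * P ξ (k + 1) * P ξ k + b * (P ξ (k + 1) * Q ξ k + P ξ k * Q ξ (k + 1))
      + 2 * c * Q ξ (k + 1) * Q ξ k : ℤ) : ℝ)
      = e * (q1 * d0 - q0 * d1) * κ - 2 * a * (d0 * d1) := by
    push_cast
    rw [hP0, hP1, hc, hκ]
    linear_combination (-2 * a * d0 * d1) * he2
  have key : ∀ (z : ℤ) (u v : ℝ), |u| ≤ 1 → |v| ≤ 2 → (z : ℝ) = e * u * κ + a * v →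
      z ∈ Set.Icc (-(K : ℤ)) K := by
    intro z u v hu hv hz
    have h3 : |(z : ℝ)| ≤ K := by
      rw [hz]
      refine (abs_add_le _ _).trans ?_
      rw [abs_mul, abs_mul, abs_mul, heabs]
      have := abs_nonneg κ
      have := abs_nonneg (a : ℝ)
      nlinarith
    have h4 : |z| ≤ (K : ℤ) := by exact_mod_cast h3
    exact abs_le.mp h4
  have hq0d1 : 0 ≤ q0 * d1 := by positivity
  have hq1d0 : 0 ≤ q1 * d0 := by positivity
  have hq1d1 : q1 * d1 ≤ q1 * d0 := by nlinarith
  have hq0d0 : q0 * d0 ≤ q1 * d0 := by nlinarith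
  have hq1d1' : 0 ≤ q1 * d1 := by positivity
  have hq0d0' : 0 ≤ q0 * d0 := by positivity
  have hdd1 : d1 * d1 ≤ 1 := by nlinarith
  have hdd0 : d0 * d0 ≤ 1 := by nlinarith
  have hdd : d0 * d1 ≤ 1 := by nlinarith
  have hdd1' : 0 ≤ d1 * d1 := by positivity
  have hdd0' : 0 ≤ d0 * d0 := by positivity
  have hdd' : 0 ≤ d0 * d1 := by positivity
  refine ⟨_, ⟨key _ (-(q1 * d1)) (d1 * d1) (abs_le.mpr ⟨by linarith, by linarith⟩)
      (abs_le.mpr ⟨by linarith, by linarith⟩) (by rw [hA]; ring), ?_⟩,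
    _, key _ (q1 * d0 - q0 * d1) (-2 * (d0 * d1)) (abs_le.mpr ⟨by linarith, by linarith⟩)
      (abs_le.mpr ⟨by linarith, by linarith⟩) (by rw [hB]; ring),
    _, key _ (q0 * d0) (d0 * d0) (abs_le.mpr ⟨by linarith, by linarith⟩)
      (abs_le.mpr ⟨by linarith, by linarith⟩) (by rw [hC]), ?_⟩
  · intro hz
    rw [Set.mem_singleton_iff] at hz
    rw [hz] at hA
    have h5 : d1 * (a * d1 - e * q1 * κ) = 0 := by
      simp only [Int.cast_zero] at hA
      linarith
    have h6 : a * d1 - e * q1 * κ = 0 := by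
      rcases mul_eq_zero.mp h5 with h7 | h7
      · linarith
      · exact h7
    have h7 : (a : ℝ) * (e * d1) = q1 * κ := by linear_combination e * h6 + (q1 * κ) * he2
    have h8 : e * d1 = q1 * ξ - P ξ (k + 1) := by linarith
    rw [h8, hκ] at h7
    have ha' : (a : ℝ) ≠ 0 := by exact_mod_cast ha
    have h9 : ξ = ((-(a * P ξ (k + 1) + Q ξ (k + 1) * b) : ℤ) : ℝ) / ((a * Q ξ (k + 1) : ℤ) : ℝ) := by
      have h10 : q1 ≠ 0 := by linarith
      rw [eq_div_iff (by push_cast; exact mul_ne_zero ha' h10)]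
      push_cast
      show ξ * (a * q1) = -(a * (P ξ (k + 1) : ℝ) + q1 * b)
      linarith
    exact h ⟨((-(a * P ξ (k + 1) + Q ξ (k + 1) * b) : ℤ) : ℚ) / ((a * Q ξ (k + 1) : ℤ) : ℚ), by
      rw [Rat.cast_div, Rat.cast_intCast, Rat.cast_intCast]; exact h9.symm⟩
  · show _ = (0 : ℝ)
    rw [hA, hB, hC, ← hx]
    ring

end Pool.Agent.Lib.MP_425be5_nt
end

-- part Pool.Agent.Lib.MP_425be5_nt.Words
section

/-!
The combinatorial tower words attached to a sequence of partial quotients and the marked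
point `1/2`, and bounds on their sums and running maxima.
-/

namespace Pool.Agent.Lib.MP_425be5_nt

/-- The four positions of the marked point. -/
inductive Ty : Type
  | tL : Ty
  | tM : Ty
  | tN : Ty
  | tP : Ty
  deriving DecidableEq

instance : Finite Ty :=
  Finite.of_surjective (fun i : Fin 4 => if i = 0 then Ty.tL else if i = 1 then Ty.tM
      else if i = 2 then Ty.tN else Ty.tP) (by
    intro t
    cases t
    · exact ⟨0, rfl⟩
    · exact ⟨1, rfl⟩
    · exact ⟨2, rfl⟩
    · exact ⟨3, rfl⟩)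

/-- The digit of the marked point. -/
def beta : Ty → ℕ → ℕ
  | .tL, a => (a - 1) / 2
  | .tM, a => a / 2
  | .tN, _ => 0
  | .tP, a => (a + 1) / 2

/-- The next position of the marked point. -/
def nxt : Ty → ℕ → Ty
  | .tL, a => if a % 2 = 0 then .tN else .tM
  | .tM, a => if a % 2 = 0 then .tM else .tN
  | .tN, _ => .tP
  | .tP, a => if a % 2 = 0 then .tN else .tM

/-- The side of the marked point on which block number `b` lies. -/
def side (β b : ℕ) (s : Bool) : Bool := if b < β then false else if β < b then true else !s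

theorem side_lt {β b : ℕ} (h : b < β) (s : Bool) : side β b s = false := by simp [side, h]
theorem side_gt {β b : ℕ} (h : β < b) (s : Bool) : side β b s = true := by
  simp [side, h, h.le]
theorem side_eq (β : ℕ) (s : Bool) : side β β s = !s := by simp [side]

/-- The concatenation of the first `b` long blocks. -/
def pre (W : Bool → List ℤ) (β : ℕ) (s : Bool) : ℕ → List ℤ
  | 0 => []
  | b + 1 => pre W β s b ++ W (side β b s)

/-- Maximum of the sums of proper initial segments (`-1` for the empty word). -/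
def mx : List ℤ → ℤ
  | [] => -1
  | x :: X => max 0 (x + mx X)

theorem mx_ge (X : List ℤ) : -1 ≤ mx X := by
  cases X with
  | nil => simp [mx]
  | cons x X => simp only [mx]; omega

theorem mx_append (X Y : List ℤ) : mx (X ++ Y) = max (mx X) (X.sum + mx Y) := by
  induction X with
  | nil => have := mx_ge Y; simp only [List.nil_append, mx, List.sum_nil]; omega
  | cons x X ih => simp only [List.cons_append, mx, ih, List.sum_cons]; omega

theorem sum_take_le_mx : ∀ (X : List ℤ) (n : ℕ), n < X.length → (X.take n).sum ≤ mx X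
  | [], n, h => by simp at h
  | x :: X, 0, _ => by simp [mx]
  | x :: X, n + 1, h => by
    have := sum_take_le_mx X n (by simpa using h)
    simp only [List.take_succ_cons, List.sum_cons, mx]
    omega

theorem exists_mx : ∀ (X : List ℤ), (∀ x ∈ X, x ≤ 1) → X ≠ [] →
    ∃ m < X.length, mx X = (X.take m).sum
  | [], _, h => absurd rfl h
  | [x], h, _ => ⟨0, by simp, by have := h x (by simp); simp only [mx]; simp; omega⟩
  | x :: y :: X, h, _ => by
    obtain ⟨m, hm, hm'⟩ := exists_mx (y :: X) (fun z hz => h z (by simp [hz])) (by simp)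
    by_cases h0 : 0 ≤ x + mx (y :: X)
    · refine ⟨m + 1, by simpa using hm, ?_⟩
      rw [List.take_succ_cons, List.sum_cons, ← hm', mx]
      omega
    · refine ⟨0, by simp, ?_⟩
      rw [mx]
      simp
      omega

/-- Two words whose running maxima and sums differ by at most two. -/
def Close (X Y : List ℤ) : Prop :=
  mx X ≤ mx Y + 2 ∧ mx Y ≤ mx X + 2 ∧ X.sum ≤ Y.sum + 2 ∧ Y.sum ≤ X.sum + 2

theorem Close.refl (X : List ℤ) : Close X X := by simp [Close]

theorem Close.symm {X Y : List ℤ} (h : Close X Y) : Close Y X :=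
  ⟨h.2.1, h.1, h.2.2.2, h.2.2.1⟩

theorem Close.left {X Y : List ℤ} (h : Close X Y) (Z : List ℤ) : Close (Z ++ X) (Z ++ Y) := by
  simp only [Close, mx_append, List.sum_append] at *
  omega

theorem Close.right {X Y : List ℤ} (h : Close X Y) (Z : List ℤ) : Close (X ++ Z) (Y ++ Z) := by
  simp only [Close, mx_append, List.sum_append] at *
  omega

theorem close_all {W : Bool → List ℤ} (h : Close (W false) (W true)) (s s' : Bool) :
    Close (W s) (W s') := by
  cases s <;> cases s'
  · exact Close.refl _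
  · exact h
  · exact h.symm
  · exact Close.refl _

theorem pre_eq (W : Bool → List ℤ) (β : ℕ) (s s' : Bool) :
    ∀ b, b ≤ β → pre W β s b = pre W β s' b
  | 0, _ => rfl
  | b + 1, h => by
    simp only [pre]
    rw [pre_eq W β s s' b (by omega), side_lt (by omega), side_lt (by omega)]

theorem pre_close {W : Bool → List ℤ} (h : Close (W false) (W true)) (β : ℕ) (s s' : Bool) :
    ∀ b, Close (pre W β s b) (pre W β s' b)
  | 0 => Close.refl _
  | b + 1 => by
    simp only [pre]
    rcases le_or_gt b β with hb | hb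
    · rw [pre_eq W β s s' b hb]
      exact (close_all h _ _).left _
    · rw [side_gt hb, side_gt hb]
      exact (pre_close h β s s' b).right _

theorem pre_sum_le (W : Bool → List ℤ) (β : ℕ) (s : Bool) :
    ∀ b, b ≤ β → (pre W β s b).sum = b * (W false).sum
  | 0, _ => by simp [pre]
  | b + 1, h => by
    simp only [pre, List.sum_append]
    rw [pre_sum_le W β s b (by omega), side_lt (by omega)]
    push_cast
    ring

theorem pre_sum_gt (W : Bool → List ℤ) (β : ℕ) (s : Bool) :
    ∀ j, (pre W β s (β + 1 + j)).sum = β * (W false).sum + (W (!s)).sum + j * (W true).sum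
  | 0 => by
    simp only [pre, List.sum_append]
    rw [pre_sum_le W β s β le_rfl, side_eq]
    simp
  | j + 1 => by
    rw [← add_assoc]
    simp only [pre, List.sum_append]
    rw [pre_sum_gt W β s j, side_gt (by omega)]
    push_cast
    ring

theorem pre_length {W : Bool → List ℤ} {q : ℕ} (h : ∀ s, (W s).length = q) (β : ℕ) (s : Bool) :
    ∀ b, (pre W β s b).length = b * q
  | 0 => by simp [pre]
  | b + 1 => by
    simp only [pre, List.length_append, h, pre_length h β s b]
    ring

theorem pre_prefix (W : Bool → List ℤ) (β : ℕ) (s : Bool) (b : ℕ) :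
    ∀ j, ∃ Z, pre W β s (b + j) = pre W β s b ++ Z
  | 0 => ⟨[], by simp⟩
  | j + 1 => by
    obtain ⟨Z, hZ⟩ := pre_prefix W β s b j
    exact ⟨Z ++ W (side β (b + j) s), by rw [← add_assoc]; simp only [pre]; rw [hZ]; simp⟩

theorem pre_sum_bound {W : Bool → List ℤ} (h : ∀ s, (W s).sum ≤ 2) (β : ℕ) (s : Bool) :
    ∀ b, (pre W β s b).sum ≤ 2 * b
  | 0 => by simp [pre]
  | b + 1 => by
    have h1 := pre_sum_bound h β s b
    have h2 := h (side β b s)
    simp only [pre, List.sum_append]
    push_cast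
    omega

theorem pre_mx_bound {W : Bool → List ℤ} (h : ∀ s, (W s).sum ≤ 2) {U : ℤ} (hU : ∀ s, mx (W s) ≤ U)
    (β : ℕ) (s : Bool) : ∀ b, mx (pre W β s b) ≤ U + 2 * b
  | 0 => by
    have := hU false
    have := mx_ge (W false)
    simp only [pre, mx]
    omega
  | b + 1 => by
    have h1 := pre_sum_bound h β s b
    have h2 := pre_mx_bound h hU β s b
    have h3 := hU (side β b s)
    simp only [pre, mx_append]
    push_cast
    omega

theorem pre_mx_lower (W : Bool → List ℤ) (β : ℕ) (s : Bool) {b : ℕ} (hb : 1 ≤ b) :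
    mx (W (side β 0 s)) ≤ mx (pre W β s b) := by
  obtain ⟨Z, hZ⟩ := pre_prefix W β s 1 (b - 1)
  rw [show 1 + (b - 1) = b by omega] at hZ
  rw [hZ, mx_append]
  simp [pre]

section seq

variable (a : ℕ → ℕ) (e : ℤ)

/-- The position of the marked point at level `k`. -/
def ty : ℕ → Ty
  | 0 => .tL
  | k + 1 => nxt (ty k) (a k)

/-- The digit of the marked point at level `k`. -/
def bt (k : ℕ) : ℕ := beta (ty a k) (a k)

/-- The long and the short words at level `k`. -/
def LS : ℕ → (Bool → List ℤ) × (Bool → List ℤ)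
  | 0 => (fun s => [if s then -e else e], fun _ => [])
  | k + 1 => (fun s => pre (LS k).1 (bt a k) s (a k) ++ (LS k).2 (side (bt a k) (a k) s),
      fun s => (LS k).1 (side (bt a k) 0 s))

/-- The long words. -/
def Lw (k : ℕ) : Bool → List ℤ := (LS a e k).1

/-- The short words. -/
def Sw (k : ℕ) : Bool → List ℤ := (LS a e k).2

theorem Lw_zero (s : Bool) : Lw a e 0 s = [if s then -e else e] := rfl
theorem Sw_zero (s : Bool) : Sw a e 0 s = [] := rfl
theorem Lw_succ (k : ℕ) (s : Bool) : Lw a e (k + 1) s =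
    pre (Lw a e k) (bt a k) s (a k) ++ Sw a e k (side (bt a k) (a k) s) := rfl
theorem Sw_succ (k : ℕ) (s : Bool) : Sw a e (k + 1) s = Lw a e k (side (bt a k) 0 s) := rfl

/-- Lengths: `Qn 0 = 0`, `Qn 1 = 1`, `Qn (k+2) = a k * Qn (k+1) + Qn k`. -/
def Qn : ℕ → ℕ
  | 0 => 0
  | 1 => 1
  | k + 2 => a k * Qn (k + 1) + Qn k

theorem length_LS : ∀ k, (∀ s, (Lw a e k s).length = Qn a (k + 1)) ∧
    (∀ s, (Sw a e k s).length = Qn a k)
  | 0 => ⟨fun _ => rfl, fun _ => rfl⟩
  | k + 1 => by
    obtain ⟨h1, h2⟩ := length_LS k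
    refine ⟨fun s => ?_, fun s => ?_⟩
    · rw [Lw_succ, List.length_append, pre_length h1, h2]; rfl
    · rw [Sw_succ, h1]

/-- The sums of the words are determined by the position of the marked point and a sign. -/
def SumInv : Ty → ℤ → ℤ → ℤ → ℤ → ℤ → Prop
  | .tL, ε, l0, l1, s0, s1 => l0 = -ε ∧ l1 = ε ∧ s0 = 0 ∧ s1 = 0
  | .tM, ε, l0, l1, _, s1 => l0 = -ε ∧ l1 = ε ∧ s1 = ε
  | .tN, ε, l0, l1, _, s1 => l0 = -2 * ε ∧ l1 = 0 ∧ s1 = ε
  | .tP, ε, l0, l1, s0, s1 => l0 = -ε ∧ l1 = ε ∧ s0 = 0 ∧ s1 = 2 * ε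

theorem side_zero_true (β : ℕ) : side β 0 true = false := by
  rcases Nat.eq_zero_or_pos β with h | h
  · rw [h, side_eq]; rfl
  · exact side_lt h _

theorem sumInv_step (W V : Bool → List ℤ) (t : Ty) (ε : ℤ) (n : ℕ) (hn : 1 ≤ n)
    (h : SumInv t ε (W false).sum (W true).sum (V false).sum (V true).sum) :
    SumInv (nxt t n) (-ε)
      (pre W (beta t n) false n ++ V (side (beta t n) n false)).sum
      (pre W (beta t n) true n ++ V (side (beta t n) n true)).sum
      (W (side (beta t n) 0 false)).sum (W (side (beta t n) 0 true)).sum := by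
  rw [side_zero_true]
  have key : ∀ β j, n = β + 1 + j → ∀ s,
      (pre W β s n ++ V (side β n s)).sum
        = β * (W false).sum + (W (!s)).sum + j * (W true).sum + (V true).sum := by
    intro β j hj s
    rw [List.sum_append, side_gt (by omega), hj, pre_sum_gt]
  rcases Nat.even_or_odd' n with ⟨m, hm | hm⟩
  · have hmod : n % 2 = 0 := by omega
    obtain ⟨m, rfl⟩ : ∃ m', m = m' + 1 := ⟨m - 1, by omega⟩
    cases t
    · obtain ⟨h1, h2, h3, h4⟩ := h
      have hb : beta .tL n = m := by simp only [beta]; omega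
      simp only [nxt, hmod, if_true, hb, SumInv, key m (m + 1) (by omega), Bool.not_false,
        Bool.not_true, h1, h2, h4]
      push_cast
      refine ⟨by ring, by ring, trivial⟩
    · obtain ⟨h1, h2, h4⟩ := h
      have hb : beta .tM n = m + 1 := by simp only [beta]; omega
      simp only [nxt, hmod, if_true, hb, SumInv, key (m + 1) m (by omega), Bool.not_false,
        Bool.not_true, h1, h2, h4]
      push_cast
      refine ⟨by ring, by ring, trivial⟩
    · obtain ⟨h1, h2, h4⟩ := h
      have hb : beta .tN n = 0 := rfl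
      simp only [nxt, hb, SumInv, key 0 (n - 1) (by omega), Bool.not_false, side_eq,
        Bool.not_true, h1, h2, h4]
      push_cast
      refine ⟨by ring, by ring, trivial, by ring⟩
    · obtain ⟨h1, h2, h3, h4⟩ := h
      have hb : beta .tP n = m + 1 := by simp only [beta]; omega
      simp only [nxt, hmod, if_true, hb, SumInv, key (m + 1) m (by omega), Bool.not_false,
        Bool.not_true, h1, h2, h4]
      push_cast
      refine ⟨by ring, by ring, trivial⟩
  · have hmod : ¬ n % 2 = 0 := by omega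
    cases t
    · obtain ⟨h1, h2, h3, h4⟩ := h
      have hb : beta .tL n = m := by simp only [beta]; omega
      simp only [nxt, hmod, if_false, hb, SumInv, key m m (by omega), Bool.not_false,
        Bool.not_true, h1, h2, h4]
      refine ⟨by ring, by ring, trivial⟩
    · obtain ⟨h1, h2, h4⟩ := h
      have hb : beta .tM n = m := by simp only [beta]; omega
      simp only [nxt, hmod, if_false, hb, SumInv, key m m (by omega), Bool.not_false,
        Bool.not_true, h1, h2, h4]
      refine ⟨by ring, by ring, trivial⟩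
    · obtain ⟨h1, h2, h4⟩ := h
      have hb : beta .tN n = 0 := rfl
      simp only [nxt, hb, SumInv, key 0 (n - 1) (by omega), Bool.not_false, side_eq,
        Bool.not_true, h1, h2, h4]
      push_cast
      refine ⟨by ring, by ring, trivial, by ring⟩
    · obtain ⟨h1, h2, h3, h4⟩ := h
      have hb : beta .tP n = m + 1 := by simp only [beta]; omega
      rcases Nat.eq_zero_or_pos m with h0 | h0
      · have hn1 : n = 1 := by omega
        subst h0
        rw [hb, hn1]
        simp only [nxt, SumInv, List.sum_append, zero_add, side_eq,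
          pre_sum_le W 1 _ 1 le_rfl, Bool.not_false, Bool.not_true, h1, h3, h4]
        simp
        ring
      · obtain ⟨m, rfl⟩ : ∃ m', m = m' + 1 := ⟨m - 1, by omega⟩
        simp only [nxt, hmod, if_false, hb, SumInv, key (m + 1 + 1) m (by omega), Bool.not_false,
          Bool.not_true, h1, h2, h4]
        push_cast
        refine ⟨by ring, by ring, trivial⟩

variable {a e}

theorem sumInv (ha : ∀ k, 1 ≤ a k) : ∀ k, SumInv (ty a k) (-e * (-1) ^ k)
    (Lw a e k false).sum (Lw a e k true).sum (Sw a e k false).sum (Sw a e k true).sum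
  | 0 => by simp [ty, SumInv, Lw_zero, Sw_zero]
  | k + 1 => by
    have := sumInv_step _ _ _ _ (a k) (ha k) (sumInv ha k)
    rw [show -e * (-1) ^ (k + 1) = -(-e * (-1) ^ k) by ring]
    exact this

theorem sum_Lw_bound (ha : ∀ k, 1 ≤ a k) (he : e = 1 ∨ e = -1) (k : ℕ) (s : Bool) :
    -2 ≤ (Lw a e k s).sum ∧ (Lw a e k s).sum ≤ 2 := by
  have h := sumInv (e := e) ha k
  have hε : -e * (-1) ^ k = 1 ∨ -e * (-1) ^ k = -1 := by
    rcases neg_one_pow_eq_or ℤ k with h1 | h1 <;> rcases he with h2 | h2 <;> simp [h1, h2]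
  generalize -e * (-1) ^ k = ε at h hε
  generalize ty a k = t at h
  cases t <;> cases s <;> simp only [SumInv] at h <;> omega

theorem sum_Sw_bound (ha : ∀ k, 1 ≤ a k) (he : e = 1 ∨ e = -1) (k : ℕ) (s : Bool) :
    -2 ≤ (Sw a e k s).sum ∧ (Sw a e k s).sum ≤ 2 := by
  cases k with
  | zero => simp [Sw_zero]
  | succ k => rw [Sw_succ]; exact sum_Lw_bound ha he k _

theorem close_LS (he : e = 1 ∨ e = -1) : ∀ k, Close (Lw a e k false) (Lw a e k true) ∧
    Close (Sw a e k false) (Sw a e k true)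
  | 0 => by
    refine ⟨?_, Close.refl _⟩
    rcases he with h | h <;> simp [Lw_zero, Close, mx, h]
  | k + 1 => by
    obtain ⟨h1, h2⟩ := close_LS he k
    refine ⟨?_, ?_⟩
    · rw [Lw_succ, Lw_succ]
      rcases le_or_gt (a k) (bt a k) with hb | hb
      · rw [pre_eq _ _ false true _ hb]
        exact (close_all h2 _ _).left _
      · rw [side_gt hb, side_gt hb]
        exact (pre_close h1 _ _ _ _).right _
    · rw [Sw_succ, Sw_succ]
      exact close_all h1 _ _

theorem mx_Lw_near (he : e = 1 ∨ e = -1) (k : ℕ) (s : Bool) :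
    mx (Lw a e k false) - 2 ≤ mx (Lw a e k s) ∧ mx (Lw a e k s) ≤ mx (Lw a e k false) + 2 := by
  have := close_all (close_LS (a := a) he k).1 s false
  simp only [Close] at this
  omega

theorem mx_Lw_mono (ha : ∀ k, 1 ≤ a k) (he : e = 1 ∨ e = -1) (k : ℕ) :
    mx (Lw a e k false) - 2 ≤ mx (Lw a e (k + 1) false) := by
  have h1 := pre_mx_lower (Lw a e k) (bt a k) false (ha k)
  have h2 := mx_Lw_near (a := a) he k (side (bt a k) 0 false)
  rw [Lw_succ, mx_append]
  omega

theorem mx_Sw_upper (ha : ∀ k, 1 ≤ a k) (he : e = 1 ∨ e = -1) (k : ℕ) (s : Bool) :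
    mx (Sw a e k s) ≤ mx (Lw a e k false) + 4 := by
  cases k with
  | zero => have := mx_ge (Lw a e 0 false); rw [Sw_zero, mx]; omega
  | succ k =>
    have h1 := mx_Lw_mono ha he k
    have h2 := mx_Lw_near (a := a) he k (side (bt a k) 0 s)
    rw [Sw_succ]
    omega

theorem mx_Sw_lower (ha : ∀ k, 1 ≤ a k) (he : e = 1 ∨ e = -1) {A : ℕ} (hA : ∀ k, a k ≤ A)
    (k : ℕ) (s : Bool) : mx (Lw a e k false) - (2 * A + 6) ≤ mx (Sw a e k s) := by
  cases k with
  | zero => rcases he with h | h <;> simp [Sw_zero, Lw_zero, mx, h] <;> omega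
  | succ k =>
    have h1 := pre_mx_bound (fun s => (sum_Lw_bound ha he k s).2)
      (fun s => (mx_Lw_near (a := a) he k s).2) (bt a k) false (a k)
    have h2 := pre_sum_bound (fun s => (sum_Lw_bound ha he k s).2) (bt a k) false (a k)
    have h3 := mx_Sw_upper ha he k (side (bt a k) (a k) false)
    have h4 := mx_Lw_near (a := a) he k (side (bt a k) 0 s)
    have h5 := hA k
    rw [Sw_succ, Lw_succ, mx_append]
    omega

end seq

end Pool.Agent.Lib.MP_425be5_nt
end

-- part Pool.Agent.Lib.MP_425be5_nt.Auto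
section

/-!
An automaton reading digits from the least significant one which decides whether the value read
is a strict running maximum of the tower word.
-/

namespace Pool.Agent.Lib.MP_425be5_nt

/-- Sums of the first blocks, from the table of sums. -/
def pS (l : Bool → ℤ) (β : ℕ) (s : Bool) : ℕ → ℤ
  | 0 => 0
  | b + 1 => pS l β s b + l (side β b s)

/-- Normalised maxima of the first `b + 1` blocks. -/
def pM (l d : Bool → ℤ) (β : ℕ) (s : Bool) : ℕ → ℤ
  | 0 => d (side β 0 s)
  | b + 1 => max (pM l d β s b) (pS l β s (b + 1) + d (side β (b + 1) s))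

theorem pS_eq (W : Bool → List ℤ) (β : ℕ) (s : Bool) :
    ∀ b, pS (fun s => (W s).sum) β s b = (pre W β s b).sum
  | 0 => rfl
  | b + 1 => by simp only [pS, pre, List.sum_append, pS_eq W β s b]

theorem pM_eq (W : Bool → List ℤ) (μ : ℤ) (β : ℕ) (s : Bool) :
    ∀ b, pM (fun s => (W s).sum) (fun s => mx (W s) - μ) β s b = mx (pre W β s (b + 1)) - μ
  | 0 => by simp [pM, pre]
  | b + 1 => by
    have h := pM_eq W μ β s b
    rw [pM, h, pS_eq, pre.eq_2 W β s (b + 1), mx_append]
    omega

/-- States of the automaton. -/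
structure St (X : Type) : Type where
  x : X
  t : Ty
  l : Bool → ℤ
  s : Bool → ℤ
  dL : Bool → ℤ
  dS : Bool → ℤ
  rL : Bool → Option ℤ
  rS : Bool → Option ℤ
  acc : Bool

section aut

variable {X : Type} (av : X → ℕ) (nx : X → X) (x0 : X) (e : ℤ) (C : ℤ)

/-- Normalised maximum of the next long word. -/
def newM (st : St X) (s : Bool) : ℤ :=
  max (pM st.l st.dL (beta st.t (av st.x)) s (av st.x - 1))
    (pS st.l (beta st.t (av st.x)) s (av st.x) + st.dS (side (beta st.t (av st.x)) (av st.x) s))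

/-- Auxiliary update of the gap. -/
def upd (b : ℕ) (m p dX nm : ℤ) : Option ℤ → Option ℤ
  | none => none
  | some g => if b = 0 ∨ m < p + dX - g then some (nm - p - dX + g) else none

/-- The new gap before clipping. -/
def flag (st : St X) (b : ℕ) (s : Bool) : Option ℤ :=
  upd b (pM st.l st.dL (beta st.t (av st.x)) s (b - 1)) (pS st.l (beta st.t (av st.x)) s b)
    (if b < av st.x then st.dL (side (beta st.t (av st.x)) b s)
      else st.dS (side (beta st.t (av st.x)) b s))
    (newM av st s)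
    (if b < av st.x then st.rL (side (beta st.t (av st.x)) b s)
      else st.rS (side (beta st.t (av st.x)) b s))

/-- Forget a gap that is too large. -/
def clip : Option ℤ → Option ℤ
  | none => none
  | some g => if 0 ≤ g ∧ g ≤ C then some g else none

/-- The transition. -/
def stp (st : St X) (b : ℕ) : St X where
  x := nx st.x
  t := nxt st.t (av st.x)
  l := fun s => pS st.l (beta st.t (av st.x)) s (av st.x)
    + st.s (side (beta st.t (av st.x)) (av st.x) s)
  s := fun s => st.l (side (beta st.t (av st.x)) 0 s)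
  dL := fun s => newM av st s - newM av st false
  dS := fun s => st.dL (side (beta st.t (av st.x)) 0 s) - newM av st false
  rL := fun s => clip C (flag av st b s)
  rS := fun s => st.rL (side (beta st.t (av st.x)) 0 s)
  acc := (flag av st b (decide (nxt st.t (av st.x) = Ty.tN))).isSome

/-- The automaton. -/
def aut : DFA ℕ (St X) where
  step := stp av nx C
  start := ⟨x0, Ty.tL, fun s => if s then -e else e, fun _ => 0, fun _ => 0, fun _ => -1,
    fun _ => some 0, fun _ => none, true⟩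
  accept := {st | st.acc = true}

/-- The sequence of partial quotients read from the clock. -/
def aseq (k : ℕ) : ℕ := av (nx^[k] x0)

/-- The part of the state that depends only on the level. -/
def LInv (k : ℕ) (st : St X) : Prop :=
  st.x = nx^[k] x0 ∧ st.t = ty (aseq av nx x0) k ∧
  st.l = (fun s => (Lw (aseq av nx x0) e k s).sum) ∧
  st.s = (fun s => (Sw (aseq av nx x0) e k s).sum) ∧
  st.dL = (fun s => mx (Lw (aseq av nx x0) e k s) - mx (Lw (aseq av nx x0) e k false)) ∧
  st.dS = (fun s => mx (Sw (aseq av nx x0) e k s) - mx (Lw (aseq av nx x0) e k false))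

variable {av nx x0 e C}

theorem newM_eq (ha : ∀ k, 1 ≤ aseq av nx x0 k) {k : ℕ} {st : St X} (h : LInv av nx x0 e k st)
    (s : Bool) : newM av st s
      = mx (Lw (aseq av nx x0) e (k + 1) s) - mx (Lw (aseq av nx x0) e k false) := by
  obtain ⟨h1, h2, h3, h4, h5, h6⟩ := h
  have hav : av st.x = aseq av nx x0 k := by rw [h1]; rfl
  have hb : beta st.t (aseq av nx x0 k) = bt (aseq av nx x0) k := by rw [h2]; rfl
  rw [newM, hav, hb, h3, h5, h6, pM_eq, pS_eq, Lw_succ, mx_append,
    show aseq av nx x0 k - 1 + 1 = aseq av nx x0 k by have := ha k; omega]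
  simp only
  omega

theorem LInv_step (ha : ∀ k, 1 ≤ aseq av nx x0 k) {k : ℕ} {st : St X} (h : LInv av nx x0 e k st)
    (b : ℕ) : LInv av nx x0 e (k + 1) (stp av nx C st b) := by
  have hn := newM_eq ha h
  obtain ⟨h1, h2, h3, h4, h5, h6⟩ := h
  have hav : av st.x = aseq av nx x0 k := by rw [h1]; rfl
  have hb : beta st.t (aseq av nx x0 k) = bt (aseq av nx x0) k := by rw [h2]; rfl
  refine ⟨?_, ?_, ?_, ?_, ?_, ?_⟩
  · simp only [stp, h1, Function.iterate_succ_apply']
  · simp only [stp, hav, h2]; rfl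
  · funext s
    simp only [stp, hav, hb, h3, h4, pS_eq, Lw_succ, List.sum_append]
  · funext s
    simp only [stp, hav, hb, h3, Sw_succ]
  · funext s
    simp only [stp, hn]
    ring
  · funext s
    simp only [stp, hn, hav, hb, h5, Sw_succ]
    ring

theorem LInv_start (he : e = 1 ∨ e = -1) : LInv av nx x0 e 0 (aut av nx x0 e C).start := by
  refine ⟨rfl, rfl, ?_, ?_, ?_, ?_⟩
  · funext s; simp [aut, Lw_zero]
  · funext s; simp [aut, Sw_zero]
  · funext s; rcases he with h | h <;> cases s <;> simp [aut, Lw_zero, mx, h]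
  · funext s; rcases he with h | h <;> simp [aut, Lw_zero, Sw_zero, mx, h]

theorem eval_reverse_cons (b : ℕ) (w : List ℕ) :
    (aut av nx x0 e C).eval (b :: w).reverse
      = stp av nx C ((aut av nx x0 e C).eval w.reverse) b := by
  rw [List.reverse_cons, DFA.eval_append_singleton]; rfl

theorem LInv_eval (ha : ∀ k, 1 ≤ aseq av nx x0 k) (he : e = 1 ∨ e = -1) :
    ∀ w : List ℕ, LInv av nx x0 e w.length ((aut av nx x0 e C).eval w.reverse)
  | [] => LInv_start he
  | b :: w => by
    rw [eval_reverse_cons]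
    exact LInv_step ha (LInv_eval ha he w) b

/-- The bounded set of gaps. -/
def Gaps (C : ℤ) : Set (Option ℤ) := insert none (some '' Set.Icc 0 C)

theorem clip_mem (o : Option ℤ) : clip C o ∈ Gaps C := by
  cases o with
  | none => simp [clip, Gaps]
  | some g =>
    simp only [clip]
    split_ifs with h
    · exact Or.inr ⟨g, h, rfl⟩
    · exact Or.inl rfl

theorem gaps_eval (hC : 0 ≤ C) : ∀ w : List ℕ,
    (∀ s, ((aut av nx x0 e C).eval w.reverse).rL s ∈ Gaps C) ∧
    (∀ s, ((aut av nx x0 e C).eval w.reverse).rS s ∈ Gaps C)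
  | [] => ⟨fun _ => Or.inr ⟨0, ⟨le_rfl, hC⟩, rfl⟩, fun _ => Or.inl rfl⟩
  | b :: w => by
    rw [eval_reverse_cons]
    exact ⟨fun s => clip_mem _, fun s => (gaps_eval hC w).1 _⟩

theorem finite_fun {Y : Type} {T : Set Y} (hT : T.Finite) : {f : Bool → Y | ∀ s, f s ∈ T}.Finite :=
  Set.Finite.pi' (fun _ => hT)

theorem finite_range_eval (ha : ∀ k, 1 ≤ aseq av nx x0 k) (he : e = 1 ∨ e = -1) {A : ℕ}
    (hA : ∀ k, aseq av nx x0 k ≤ A) (hC : 0 ≤ C) (hfin : (Set.range fun k => nx^[k] x0).Finite) :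
    (Set.range (aut av nx x0 e C).eval).Finite := by
  have hG : (Gaps C).Finite := ((Set.finite_Icc _ _).image _).insert _
  have hI : (Set.Icc (-(2 * (A : ℤ) + 6)) 4).Finite := Set.finite_Icc _ _
  have hprod := hfin.prod ((Set.toFinite (Set.univ : Set Ty)).prod ((finite_fun hI).prod
    ((finite_fun hI).prod ((finite_fun hI).prod ((finite_fun hI).prod ((finite_fun hG).prod
    ((finite_fun hG).prod (Set.toFinite (Set.univ : Set Bool)))))))))
  refine (hprod.image (fun p => (⟨p.1, p.2.1, p.2.2.1, p.2.2.2.1, p.2.2.2.2.1, p.2.2.2.2.2.1,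
    p.2.2.2.2.2.2.1, p.2.2.2.2.2.2.2.1, p.2.2.2.2.2.2.2.2⟩ : St X))).subset ?_
  rintro _ ⟨u, rfl⟩
  obtain ⟨w, rfl⟩ : ∃ w : List ℕ, u = w.reverse := ⟨u.reverse, by simp⟩
  obtain ⟨h1, h2, h3, h4, h5, h6⟩ := LInv_eval (C := C) ha he w
  obtain ⟨h7, h8⟩ := gaps_eval (av := av) (nx := nx) (x0 := x0) (e := e) hC w
  generalize (aut av nx x0 e C).eval w.reverse = st at *
  refine ⟨(st.x, st.t, st.l, st.s, st.dL, st.dS, st.rL, st.rS, st.acc),
    ⟨⟨_, h1.symm⟩, trivial, fun s => ?_, fun s => ?_, fun s => ?_, fun s => ?_, h7, h8, trivial⟩,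
    rfl⟩
  · have := sum_Lw_bound ha he w.length s
    simp only [h3, Set.mem_Icc]
    omega
  · have := sum_Sw_bound ha he w.length s
    simp only [h4, Set.mem_Icc]
    omega
  · have := mx_Lw_near (a := aseq av nx x0) he w.length s
    simp only [h5, Set.mem_Icc]
    omega
  · have := mx_Sw_upper ha he w.length s
    have := mx_Sw_lower ha he hA w.length s
    simp only [h6, Set.mem_Icc]
    omega

theorem isRegular_aut (ha : ∀ k, 1 ≤ aseq av nx x0 k) (he : e = 1 ∨ e = -1) {A : ℕ}
    (hA : ∀ k, aseq av nx x0 k ≤ A) (hC : 0 ≤ C) (hfin : (Set.range fun k => nx^[k] x0).Finite) :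
    (aut av nx x0 e C).accepts.IsRegular := by
  apply Language.IsRegular.of_finite_range_leftQuotient
  rw [Language.leftQuotient_accepts, Set.range_comp]
  exact (finite_range_eval ha he hA hC hfin).image _

end aut

/-- The value of a word written most significant digit first. -/
def val (a : ℕ → ℕ) : List ℕ → ℕ
  | [] => 0
  | b :: w => b * Qn a (w.length + 1) + val a w

/-- Admissible words (leading zeros allowed). -/
def Valid (a : ℕ → ℕ) : List ℕ → Prop
  | [] => True
  | b :: w => Valid a w ∧ b ≤ a w.length ∧ (b = a w.length → w.head? = some 0)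

theorem val_lt {a : ℕ → ℕ} (ha : ∀ k, 1 ≤ a k) : ∀ w : List ℕ, Valid a w →
    val a w < Qn a (w.length + 1) ∧ (w.head? = some 0 → val a w < Qn a w.length)
  | [], _ => by simp [val, Qn]
  | b :: w, h => by
    obtain ⟨h1, h2, h3⟩ := h
    obtain ⟨h4, h5⟩ := val_lt ha w h1
    refine ⟨?_, fun h6 => ?_⟩
    · simp only [val, List.length_cons, Qn]
      rcases h2.lt_or_eq with h7 | h7
      · have : (b + 1) * Qn a (w.length + 1) ≤ a w.length * Qn a (w.length + 1) :=
          Nat.mul_le_mul_right _ h7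
        nlinarith
      · have := h5 (h3 h7)
        rw [h7]
        omega
    · simp only [List.head?_cons, Option.some.injEq] at h6
      simp only [val, h6, List.length_cons]
      omega

/-- `Y` ends at a strict running maximum. -/
def Rec (Y : List ℤ) : Prop := mx Y < Y.sum

/-- Meaning of a stored gap. -/
def RInv (C : ℤ) (W : List ℤ) (n : ℕ) : Option ℤ → Prop
  | none => ¬ Rec (W.take n) ∨ C < mx W - (W.take n).sum
  | some g => Rec (W.take n) ∧ g = mx W - (W.take n).sum

theorem upd_spec {C μ : ℤ} {F W Z : List ℤ} {n b : ℕ} {r : Option ℤ} {m : ℤ}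
    (hn : n < W.length) (hr : RInv C W n r) (hb0 : b = 0 → F = [])
    (hm : b ≠ 0 → m = mx F - μ) (hC : b ≠ 0 → mx W + F.sum - mx F ≤ C) :
    RInv C (F ++ W ++ Z) (F.length + n)
        (upd b m F.sum (mx W - μ) (mx (F ++ W ++ Z) - μ) r) ∧
      (b ≠ 0 → upd b m F.sum (mx W - μ) (mx (F ++ W ++ Z) - μ) r = none →
        ¬ Rec ((F ++ W ++ Z).take (F.length + n))) := by
  have htake : (F ++ W ++ Z).take (F.length + n) = F ++ W.take n := by
    rw [List.append_assoc, List.take_length_add_append, List.take_append_of_le_length hn.le]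
  have hge := mx_ge (W.take n)
  cases r with
  | none =>
    simp only [upd, RInv, Rec, htake, mx_append, List.sum_append] at *
    by_cases hb : b = 0
    · simp only [hb0 hb, List.sum_nil, mx] at *
      refine ⟨by omega, fun h => absurd hb h⟩
    · have := hC hb
      refine ⟨by omega, fun _ _ => by omega⟩
  | some g =>
    obtain ⟨hr1, hr2⟩ := hr
    simp only [upd]
    by_cases hb : b = 0
    · simp only [hb, true_or, if_true, RInv, Rec, htake, mx_append, List.sum_append] at *
      simp only [hb0 trivial, List.sum_nil, mx] at *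
      refine ⟨⟨by omega, by omega⟩, fun h => absurd rfl h⟩
    · have h1 := hm hb
      simp only [hb, false_or]
      split_ifs with h2
      · simp only [RInv, Rec, htake, mx_append, List.sum_append] at *
        refine ⟨⟨by omega, by omega⟩, fun _ h => by simp at h⟩
      · simp only [RInv, Rec, htake, mx_append, List.sum_append] at *
        refine ⟨by omega, fun _ _ => by omega⟩

theorem clip_spec {C : ℤ} {W : List ℤ} {n : ℕ} (hn : n < W.length) {r : Option ℤ}
    (hr : RInv C W n r) : RInv C W n (clip C r) := by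
  cases r with
  | none => exact hr
  | some g =>
    have := sum_take_le_mx W n hn
    simp only [clip]
    split_ifs with h
    · exact hr
    · simp only [RInv] at *
      omega

section main

variable {X : Type} {av : X → ℕ} {nx : X → X} {x0 : X} {e : ℤ}

theorem flag_spec (ha : ∀ k, 1 ≤ aseq av nx x0 k) (he : e = 1 ∨ e = -1) {A : ℕ}
    (hA : ∀ k, aseq av nx x0 k ≤ A) {k n b : ℕ} {st : St X} (h : LInv av nx x0 e k st)
    (hn : n < Qn (aseq av nx x0) (k + 1)) (hb : b ≤ aseq av nx x0 k)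
    (hbn : b = aseq av nx x0 k → n < Qn (aseq av nx x0) k)
    (hL : ∀ s, RInv (2 * A + 6) (Lw (aseq av nx x0) e k s) n (st.rL s))
    (hS : n < Qn (aseq av nx x0) k → ∀ s, RInv (2 * A + 6) (Sw (aseq av nx x0) e k s) n (st.rS s))
    (s : Bool) :
    RInv (2 * A + 6) (Lw (aseq av nx x0) e (k + 1) s) (b * Qn (aseq av nx x0) (k + 1) + n)
        (flag av st b s) ∧
      (b ≠ 0 → flag av st b s = none →
        ¬ Rec ((Lw (aseq av nx x0) e (k + 1) s).take (b * Qn (aseq av nx x0) (k + 1) + n))) := by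
  have hnew := newM_eq ha h s
  obtain ⟨h1, h2, h3, h4, h5, h6⟩ := h
  have hav : av st.x = aseq av nx x0 k := by rw [h1]; rfl
  have hβ : beta st.t (aseq av nx x0 k) = bt (aseq av nx x0) k := by rw [h2]; rfl
  set a := aseq av nx x0 with ha_def
  obtain ⟨hlen1, hlen2⟩ := length_LS a e k
  have hF : (pre (Lw a e k) (bt a k) s b).length = b * Qn a (k + 1) := pre_length hlen1 _ _ _
  have hb0 : b = 0 → pre (Lw a e k) (bt a k) s b = [] := by rintro rfl; rfl
  have hm : b ≠ 0 → pM (fun s => (Lw a e k s).sum)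
      (fun s => mx (Lw a e k s) - mx (Lw a e k false)) (bt a k) s (b - 1)
      = mx (pre (Lw a e k) (bt a k) s b) - mx (Lw a e k false) := by
    intro hb1
    rw [pM_eq, show b - 1 + 1 = b by omega]
  have hsum := pre_sum_bound (fun s => (sum_Lw_bound ha he k s).2) (bt a k) s b
  have hlow : b ≠ 0 → mx (Lw a e k false) - 2 ≤ mx (pre (Lw a e k) (bt a k) s b) := by
    intro hb1
    have h7 := pre_mx_lower (Lw a e k) (bt a k) s (b := b) (by omega)
    have h8 := mx_Lw_near (a := a) he k (side (bt a k) 0 s)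
    omega
  have hAk := hA k
  rw [flag, hnew, hav, hβ, h3, h5, h6, pS_eq, ← hF]
  rcases hb.lt_or_eq with hlt | heq
  · obtain ⟨Z, hZ⟩ := pre_prefix (Lw a e k) (bt a k) s (b + 1) (a k - (b + 1))
    rw [show b + 1 + (a k - (b + 1)) = a k by omega] at hZ
    have hW : Lw a e (k + 1) s = pre (Lw a e k) (bt a k) s b ++ Lw a e k (side (bt a k) b s)
        ++ (Z ++ Sw a e k (side (bt a k) (a k) s)) := by
      rw [Lw_succ, hZ, pre]; simp only [List.append_assoc]
    simp only [hlt, if_true]
    rw [hW]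
    refine upd_spec (by rw [hlen1]; exact hn) (hL _) hb0 hm (fun hb1 => ?_)
    have h7 := hlow hb1
    have h8 := mx_Lw_near (a := a) he k (side (bt a k) b s)
    omega
  · have hW : Lw a e (k + 1) s = pre (Lw a e k) (bt a k) s b ++ Sw a e k (side (bt a k) b s)
        ++ [] := by
      rw [Lw_succ, heq, List.append_nil]
    have hnlt : ¬ b < a k := by omega
    simp only [hnlt, if_false]
    rw [hW]
    refine upd_spec (by rw [hlen2]; exact hbn heq) (hS (hbn heq) _) hb0 hm (fun hb1 => ?_)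
    have h7 := hlow hb1
    have h8 := mx_Sw_upper ha he k (side (bt a k) b s)
    omega

theorem RInv_eval (ha : ∀ k, 1 ≤ aseq av nx x0 k) (he : e = 1 ∨ e = -1) {A : ℕ}
    (hA : ∀ k, aseq av nx x0 k ≤ A) : ∀ w : List ℕ, Valid (aseq av nx x0) w →
    (∀ s, RInv (2 * A + 6) (Lw (aseq av nx x0) e w.length s) (val (aseq av nx x0) w)
      (((aut av nx x0 e (2 * A + 6)).eval w.reverse).rL s)) ∧
    (val (aseq av nx x0) w < Qn (aseq av nx x0) w.length → ∀ s,
      RInv (2 * A + 6) (Sw (aseq av nx x0) e w.length s) (val (aseq av nx x0) w)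
      (((aut av nx x0 e (2 * A + 6)).eval w.reverse).rS s))
  | [], _ => by
    refine ⟨fun s => ?_, fun h => by simp [Qn] at h⟩
    rcases he with h | h <;> cases s <;> simp [aut, val, RInv, Rec, Lw_zero, mx, h]
  | b :: w, hv => by
    obtain ⟨h1, h2, h3⟩ := hv
    obtain ⟨hL, hS⟩ := RInv_eval ha he hA w h1
    obtain ⟨h4, h5⟩ := val_lt ha w h1
    have hLI := LInv_eval (C := 2 * A + 6) ha he w
    have hv' := val_lt ha (b :: w) ⟨h1, h2, h3⟩
    rw [eval_reverse_cons]
    refine ⟨fun s => ?_, fun hlt s => ?_⟩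
    · refine clip_spec ?_ (flag_spec ha he hA hLI h4 h2 (fun h => h5 (h3 h)) hL hS s).1
      rw [(length_LS _ _ _).1]
      exact hv'.1
    · have hb : b = 0 := by
        simp only [val, List.length_cons] at hlt
        by_contra hb
        have : 1 * Qn (aseq av nx x0) (w.length + 1) ≤ b * Qn (aseq av nx x0) (w.length + 1) :=
          Nat.mul_le_mul_right _ (by omega)
        omega
      obtain ⟨h6, h7, _⟩ := hLI
      have hav : av ((aut av nx x0 e (2 * A + 6)).eval w.reverse).x = aseq av nx x0 w.length := by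
        rw [h6]; rfl
      simp only [stp, hav, h7, List.length_cons, Sw_succ, val, hb, zero_mul, zero_add]
      exact hL _

theorem accepts_iff (ha : ∀ k, 1 ≤ aseq av nx x0 k) (he : e = 1 ∨ e = -1) {A : ℕ}
    (hA : ∀ k, aseq av nx x0 k ≤ A) (w : List ℕ) (hv : Valid (aseq av nx x0) w)
    (hh : w.head? ≠ some 0) :
    w.reverse ∈ (aut av nx x0 e (2 * A + 6)).accepts ↔
      Rec ((Lw (aseq av nx x0) e w.length
        (decide (ty (aseq av nx x0) w.length = Ty.tN))).take (val (aseq av nx x0) w)) := by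
  cases w with
  | nil => simp [DFA.mem_accepts, aut, val, Rec, mx]
  | cons b w =>
    obtain ⟨h1, h2, h3⟩ := hv
    obtain ⟨hL, hS⟩ := RInv_eval ha he hA w h1
    obtain ⟨h4, h5⟩ := val_lt ha w h1
    have hLI := LInv_eval (C := 2 * A + 6) ha he w
    have hb : b ≠ 0 := by simpa using hh
    have hfl := flag_spec ha he hA hLI h4 h2 (fun h => h5 (h3 h)) hL hS
      (decide (ty (aseq av nx x0) (w.length + 1) = Ty.tN))
    obtain ⟨h6, h7, _⟩ := hLI
    have hav : av ((aut av nx x0 e (2 * A + 6)).eval w.reverse).x = aseq av nx x0 w.length := by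
      rw [h6]; rfl
    rw [DFA.mem_accepts, eval_reverse_cons]
    show (flag av _ b (decide (nxt _ _ = Ty.tN))).isSome = true ↔ _
    rw [hav, h7]
    show (flag av _ b (decide (ty (aseq av nx x0) (w.length + 1) = Ty.tN))).isSome = true ↔
      Rec ((Lw (aseq av nx x0) e (w.length + 1)
        (decide (ty (aseq av nx x0) (w.length + 1) = Ty.tN))).take
        (b * Qn (aseq av nx x0) (w.length + 1) + val (aseq av nx x0) w))
    generalize flag av _ b (decide (ty (aseq av nx x0) (w.length + 1) = Ty.tN)) = o at hfl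
    cases o with
    | none => simpa using hfl.2 hb rfl
    | some g => simpa using hfl.1.1

end main

end Pool.Agent.Lib.MP_425be5_nt
end
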