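import Mathlib

/-!
Definitions for the problem on records of the deterministic random walk
`S_n(x) = sum_{j=1}^n (-1)^floor(j x)` and Ostrowski numeration.
-/

namespace Pool.Agent.Lib.MP_425be5_nt

/-- The walk `S_n(x) = sum_{j=1}^n (-1)^floor(j x)`. -/
noncomputable def walk (x : ℝ) (n : ℕ) : ℝ :=
  ∑ j ∈ Finset.Icc 1 n, (-1 : ℝ) ^ ⌊(j : ℝ) * x⌋

/-- `r` is a record of `(S_n(x))`: `S_r(x) ≠ S_n(x)` for every `n < r`. -/
def IsRecord (x : ℝ) (r : ℕ) : Prop :=
  ∀ n : ℕ, n < r → walk x r ≠ walk x n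

/-- Complete quotients of the continued fraction of `ξ`:
`ξ_0 = ξ` and `ξ_(k+1) = 1 / fract ξ_k`. -/
noncomputable def cq (ξ : ℝ) : ℕ → ℝ
  | 0 => ξ
  | k + 1 => (Int.fract (cq ξ k))⁻¹

/-- Partial quotients `a_k = floor ξ_k`, so `ξ = [a_0; a_1, a_2, ...]` for irrational `ξ > 0`. -/
noncomputable def pq (ξ : ℝ) (k : ℕ) : ℕ := ⌊cq ξ k⌋₊

/-- Denominators of the convergents: `q_0 = 1`, `q_1 = a_1`,
`q_(k+2) = a_(k+2) q_(k+1) + q_k`. -/
noncomputable def den (ξ : ℝ) : ℕ → ℕ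
  | 0 => 1
  | 1 => pq ξ 1
  | k + 2 => pq ξ (k + 2) * den ξ (k + 1) + den ξ k

/-- The digit `b_i` of a word `w = b_j ... b_1 b_0` written most significant digit first
(and `0` when `i` is at least the length of `w`). -/
def digit (w : List ℕ) (i : ℕ) : ℕ := w.reverse.getD i 0

/-- The word `w = b_j ... b_0` (most significant digit first, no leading zero, empty for `N = 0`)
is a `ξ`-Ostrowski representation of `N`. -/
def IsOstrowskiRep (ξ : ℝ) (N : ℕ) (w : List ℕ) : Prop :=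
  N = ∑ i ∈ Finset.range w.length, digit w i * den ξ i ∧
  digit w 0 < pq ξ 1 ∧
  (∀ i : ℕ, 1 ≤ i → digit w i ≤ pq ξ (i + 1)) ∧
  (∀ i : ℕ, 1 ≤ i → digit w i = pq ξ (i + 1) → digit w (i - 1) = 0) ∧
  w.head? ≠ some 0

/-- `A` is `ξ`-Ostrowski automatic: there are a finite digit alphabet `{0, ..., B - 1}` in which
every `N` has its representation, and a deterministic automaton with finitely many states over it
which, reading the representation of `N`, accepts exactly when `N ∈ A`. -/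
def OstrowskiAutomatic (ξ : ℝ) (A : Set ℕ) : Prop :=
  ∃ (B : ℕ) (σ : Type) (_ : Fintype σ) (M : DFA (Fin B) σ), ∀ N : ℕ,
    (∃ w : List (Fin B), IsOstrowskiRep ξ N (w.map Fin.val)) ∧
    ∀ w : List (Fin B), IsOstrowskiRep ξ N (w.map Fin.val) → (w ∈ M.accepts ↔ N ∈ A)

end Pool.Agent.Lib.MP_425be5_nt
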