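import Pool.Agent.Lib.MP_425be5_nt.Auto

-- part Pool.Agent.Lib.MP_425be5_nt.Tower
section

/-!
The tower words code the orbit of the rotation, and the records of the walk are the strict
running maxima of the word or of its negative.
-/

namespace Pool.Agent.Lib.MP_425be5_nt

variable {ξ : ℝ}

/-- The step function `(-1)^floor(2x)`. -/
noncomputable def sg (x : ℝ) : ℤ := if Even ⌊2 * x⌋ then 1 else -1

theorem sg_add_int (x : ℝ) (z : ℤ) : sg (x + z) = sg x := by
  have : 2 * (x + z) = 2 * x + ((2 * z : ℤ) : ℝ) := by push_cast; ring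
  simp only [sg, this, Int.floor_add_intCast, Int.even_add, even_two_mul, iff_true]

theorem sg_cases (x : ℝ) : sg x = 1 ∨ sg x = -1 := by
  simp only [sg]; split_ifs <;> simp

theorem sg_lo {x : ℝ} (h0 : 0 < x) (h1 : x < 1 / 2) : sg x = 1 := by
  have : ⌊2 * x⌋ = 0 := Int.floor_eq_iff.mpr ⟨by simp; linarith, by simp; linarith⟩
  simp [sg, this]

theorem sg_hi {x : ℝ} (h0 : 1 / 2 < x) (h1 : x < 1) : sg x = -1 := by
  have : ⌊2 * x⌋ = 1 := Int.floor_eq_iff.mpr ⟨by simp; linarith, by norm_num; linarith⟩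
  simp [sg, this]

theorem zpow_eq_sg (x : ℝ) : (-1 : ℝ) ^ ⌊2 * x⌋ = sg x := by
  simp only [sg]
  split_ifs with h
  · simp [h.neg_one_zpow]
  · simp [(Int.not_even_iff_odd.mp h).neg_one_zpow]

/-- The coding of the orbit of `y`. -/
noncomputable def orb (ξ : ℝ) (e : ℤ) (y : ℝ) (n : ℕ) : List ℤ :=
  (List.range n).map (fun j : ℕ => e * sg (y + ((j : ℝ) + 1) * ξ))

theorem orb_length (e : ℤ) (y : ℝ) (n : ℕ) : (orb ξ e y n).length = n := by simp [orb]

theorem orb_succ (e : ℤ) (y : ℝ) (n : ℕ) :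
    orb ξ e y (n + 1) = orb ξ e y n ++ [e * sg (y + ((n : ℝ) + 1) * ξ)] := by
  simp [orb, List.range_succ]

theorem orb_add (e : ℤ) (y : ℝ) (n : ℕ) :
    ∀ m, orb ξ e y (n + m) = orb ξ e y n ++ orb ξ e (y + n * ξ) m
  | 0 => by simp [orb]
  | m + 1 => by
    rw [← add_assoc, orb_succ, orb_add e y n m, orb_succ, List.append_assoc]
    have : y + (((n + m : ℕ) : ℝ) + 1) * ξ = y + n * ξ + ((m : ℝ) + 1) * ξ := by
      push_cast
      ring
    rw [this]

theorem orb_add_int (e : ℤ) (y : ℝ) (z : ℤ) (n : ℕ) : orb ξ e (y + z) n = orb ξ e y n := by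
  simp only [orb]
  congr 1
  funext j
  rw [show y + z + ((j : ℝ) + 1) * ξ = y + ((j : ℝ) + 1) * ξ + z by ring, sg_add_int]

theorem orb_take (e : ℤ) (y : ℝ) {n N : ℕ} (h : n ≤ N) : (orb ξ e y N).take n = orb ξ e y n := by
  obtain ⟨m, rfl⟩ := Nat.exists_eq_add_of_le h
  rw [orb_add, List.take_append_of_le_length (by rw [orb_length]), List.take_of_length_le
    (by rw [orb_length])]

/-- The partial quotients `a_(k+1)`. -/
noncomputable def aa (ξ : ℝ) (k : ℕ) : ℕ := pq ξ (k + 1)

theorem Qn_eq : ∀ k, Qn (aa ξ) k = Q ξ k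
  | 0 => rfl
  | 1 => rfl
  | k + 2 => by rw [Qn, Q_rec, Qn_eq (k + 1), Qn_eq k]; rfl

/-- The coordinate of the marked point. -/
noncomputable def cval : Ty → ℝ → ℝ → ℝ
  | .tL, d0, d1 => d0 / 2 - d1
  | .tM, d0, d1 => (d0 - d1) / 2
  | .tN, _, d1 => -d1 / 2
  | .tP, d0, _ => d0 / 2

theorem cval_step (t : Ty) (n : ℕ) (hn : 1 ≤ n) (d1 d2 : ℝ) (h2 : 0 < d2) (h12 : d2 < d1) :
    cval t (n * d1 + d2) d1 = beta t n * d1 - cval (nxt t n) d1 d2 ∧
    (1 ≤ beta t n → cval (nxt t n) d1 d2 ≤ d1 - d2) ∧ -d2 ≤ cval (nxt t n) d1 d2 := by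
  rcases Nat.even_or_odd' n with ⟨m, hm | hm⟩
  · have hmod : n % 2 = 0 := by omega
    obtain ⟨m, rfl⟩ : ∃ m', m = m' + 1 := ⟨m - 1, by omega⟩
    have hn' : (n : ℝ) = 2 * (m + 1) := by rw [hm]; push_cast; ring
    cases t
    · have hb : beta .tL n = m := by simp only [beta]; omega
      simp only [nxt, hmod, if_true, hb, cval, hn']
      exact ⟨by ring, fun _ => by linarith, by linarith⟩
    · have hb : beta .tM n = m + 1 := by simp only [beta]; omega
      simp only [nxt, hmod, if_true, hb, cval, hn']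
      push_cast
      exact ⟨by ring, fun _ => by linarith, by linarith⟩
    · have hb : beta .tN n = 0 := rfl
      simp only [nxt, hb, cval]
      push_cast
      exact ⟨by ring, fun h => by simp at h, by linarith⟩
    · have hb : beta .tP n = m + 1 := by simp only [beta]; omega
      simp only [nxt, hmod, if_true, hb, cval, hn']
      push_cast
      exact ⟨by ring, fun _ => by linarith, by linarith⟩
  · have hmod : ¬ n % 2 = 0 := by omega
    have hn' : (n : ℝ) = 2 * m + 1 := by rw [hm]; push_cast; ring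
    cases t
    · have hb : beta .tL n = m := by simp only [beta]; omega
      simp only [nxt, hmod, if_false, hb, cval, hn']
      exact ⟨by ring, fun _ => by linarith, by linarith⟩
    · have hb : beta .tM n = m := by simp only [beta]; omega
      simp only [nxt, hmod, if_false, hb, cval, hn']
      exact ⟨by ring, fun _ => by linarith, by linarith⟩
    · have hb : beta .tN n = 0 := rfl
      simp only [nxt, hb, cval]
      push_cast
      exact ⟨by ring, fun h => by simp at h, by linarith⟩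
    · have hb : beta .tP n = m + 1 := by simp only [beta]; omega
      simp only [nxt, hmod, if_false, hb, cval, hn']
      push_cast
      exact ⟨by ring, fun _ => by linarith, by linarith⟩

/-- The marked point at level `k`. -/
noncomputable def cc (ξ : ℝ) (k : ℕ) : ℝ := cval (ty (aa ξ) k) (D ξ k) (D ξ (k + 1))

theorem cc_step (h : Irrational ξ) (k : ℕ) :
    cc ξ k = bt (aa ξ) k * D ξ (k + 1) - cc ξ (k + 1) ∧
    (1 ≤ bt (aa ξ) k → cc ξ (k + 1) ≤ D ξ (k + 1) - D ξ (k + 2)) ∧ -D ξ (k + 2) ≤ cc ξ (k + 1) := by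
  have := cval_step (ty (aa ξ) k) (aa ξ k) (one_le_pq h k) (D ξ (k + 1)) (D ξ (k + 2))
    (D_pos h _) (D_succ_lt h _)
  rw [show (aa ξ k : ℝ) * D ξ (k + 1) + D ξ (k + 2) = D ξ k from (D_rec h k).symm] at this
  exact this

theorem side_spec (h : Irrational ξ) (k b : ℕ) (η : ℝ) (hne : η ≠ cc ξ (k + 1))
    (hlo : -D ξ (k + 2) < η) (hhi : 1 ≤ b → η < D ξ (k + 1) - D ξ (k + 2)) :
    b * D ξ (k + 1) - η ≠ cc ξ k ∧
    decide (cc ξ k < b * D ξ (k + 1) - η) = side (bt (aa ξ) k) b (decide (cc ξ (k + 1) < η)) := by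
  obtain ⟨h1, h2, h3⟩ := cc_step h k
  have hD := D_pos h (k + 1)
  rcases lt_trichotomy b (bt (aa ξ) k) with hb | hb | hb
  · have h4 := h2 (by omega)
    have h5 : (b : ℝ) + 1 ≤ bt (aa ξ) k := by exact_mod_cast hb
    have h6 : b * D ξ (k + 1) - η < cc ξ k := by nlinarith
    rw [side_lt hb]
    exact ⟨h6.ne, by simpa using h6.le⟩
  · rw [hb, side_eq, h1]
    refine ⟨fun h4 => hne (by linarith), ?_⟩
    rcases lt_or_gt_of_ne hne with h4 | h4
    · simp [h4, h4.le]
    · simp [h4, h4.le]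
  · have h4 := hhi (by omega)
    have h5 : (bt (aa ξ) k : ℝ) + 1 ≤ b := by exact_mod_cast hb
    have h6 : cc ξ k < b * D ξ (k + 1) - η := by nlinarith
    rw [side_gt hb]
    exact ⟨h6.ne', by simpa using h6⟩

theorem orb_shift (h : Irrational ξ) (e : ℤ) (k b : ℕ) (η : ℝ) (n : ℕ) :
    orb ξ e ((-1) ^ (k + 1) * η + ((b * Q ξ (k + 1) : ℕ) : ℝ) * ξ) n
      = orb ξ e ((-1) ^ k * (b * D ξ (k + 1) - η)) n := by
  rw [← orb_add_int e ((-1) ^ k * (b * D ξ (k + 1) - η)) (b * P ξ (k + 1))]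
  congr 1
  push_cast
  rw [mul_assoc (b : ℝ), Q_mul h (k + 1)]
  ring

theorem tower (h : Irrational ξ) (e : ℤ) : ∀ (k : ℕ) (η : ℝ), η ≠ cc ξ k →
    (-D ξ (k + 1) < η → η < D ξ k - D ξ (k + 1) →
      orb ξ e ((-1) ^ k * η) (Q ξ (k + 1)) = Lw (aa ξ) e k (decide (cc ξ k < η))) ∧
    (D ξ k - D ξ (k + 1) < η → η < D ξ k →
      orb ξ e ((-1) ^ k * η) (Q ξ k) = Sw (aa ξ) e k (decide (cc ξ k < η)))
  | 0, η, hne => by
    refine ⟨fun h1 h2 => ?_, fun _ _ => rfl⟩
    have hc : cc ξ 0 = 1 / 2 - D ξ 1 := rfl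
    have hD0 : D ξ 0 = 1 := rfl
    have hD1 : D ξ 1 = ξ - ⌊ξ⌋ := by simp [D, cq]
    rw [Q_one, orb_succ, Lw_zero]
    have hs : sg ((-1) ^ 0 * η + (((0 : ℕ) : ℝ) + 1) * ξ) = sg (η + D ξ 1) := by
      rw [← sg_add_int (η + D ξ 1) ⌊ξ⌋, hD1]
      congr 1
      push_cast
      ring
    rw [hs]
    simp only [zero_add] at h1 h2
    rcases lt_or_gt_of_ne hne with h4 | h4
    · rw [sg_lo (by linarith) (by linarith)]
      simp [orb, h4.le]
    · rw [sg_hi (by linarith) (by linarith)]
      simp [orb, h4]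
  | k + 1, η, hne => by
    have hD1 := D_pos h (k + 1)
    have hD2 := D_pos h (k + 2)
    have hD12 := D_succ_lt h (k + 1)
    have hrec := D_rec h k
    have ha1 : (1 : ℝ) ≤ pq ξ (k + 1) := by exact_mod_cast one_le_pq h k
    refine ⟨fun h1 h2 => ?_, fun h1 h2 => ?_⟩
    · have hpre : ∀ b, b ≤ aa ξ k → orb ξ e ((-1) ^ (k + 1) * η) (b * Q ξ (k + 1))
          = pre (Lw (aa ξ) e k) (bt (aa ξ) k) (decide (cc ξ (k + 1) < η)) b := by
        intro b
        induction b with
        | zero => intro _; simp [orb, pre]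
        | succ b ih =>
          intro hb
          obtain ⟨h3, h4⟩ := side_spec h k b η hne h1 (fun _ => h2)
          have h5 : (b : ℝ) + 1 ≤ pq ξ (k + 1) := by exact_mod_cast hb
          have h6 : (0 : ℝ) ≤ b := by positivity
          rw [add_mul, one_mul, orb_add, ih (by omega), orb_shift h, pre, ← h4,
            (tower h e k _ h3).1 (by nlinarith) (by nlinarith)]
      obtain ⟨h3, h4⟩ := side_spec h k (aa ξ k) η hne h1 (fun _ => h2)
      rw [Q_rec, orb_add, Lw_succ, ← h4]
      have h5 : (aa ξ k : ℝ) = pq ξ (k + 1) := rfl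
      have h6 := hpre (aa ξ k) le_rfl
      have h7 := orb_shift h e k (aa ξ k) η (Q ξ k)
      have h8 := (tower h e k _ h3).2 (by rw [h5]; linarith) (by rw [h5]; linarith)
      rw [← h6, ← h8, ← h7]
      rfl
    · obtain ⟨h3, h4⟩ := side_spec h k 0 η hne (by linarith) (fun h => absurd h (by simp))
      rw [Sw_succ, ← h4, ← (tower h e k _ h3).1 (by simp; linarith) (by simp; nlinarith)]
      congr 1
      simp
      ring

theorem nxt_ne (t : Ty) (n : ℕ) : nxt t n ≠ Ty.tL := by
  cases t <;> simp only [nxt] <;> (try split_ifs) <;> simp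

theorem orb_zero (h : Irrational ξ) (e : ℤ) (k : ℕ) :
    orb ξ e 0 (Q ξ (k + 2)) = Lw (aa ξ) e (k + 1) (decide (ty (aa ξ) (k + 1) = Ty.tN)) := by
  have hD1 := D_pos h (k + 1)
  have hD2 := D_pos h (k + 2)
  have hD12 := D_succ_lt h (k + 1)
  have hc : (0 : ℝ) ≠ cc ξ (k + 1) ∧
      decide (cc ξ (k + 1) < 0) = decide (ty (aa ξ) (k + 1) = Ty.tN) := by
    have hne : ty (aa ξ) (k + 1) ≠ Ty.tL := nxt_ne _ _
    rw [cc]
    generalize ty (aa ξ) (k + 1) = t at hne
    cases t
    · exact absurd rfl hne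
    · simp only [cval]
      exact ⟨by linarith, by simp; linarith⟩
    · simp only [cval]
      exact ⟨by linarith, by simp; linarith⟩
    · simp only [cval]
      exact ⟨by linarith, by simp; linarith⟩
  rw [← hc.2, ← (tower h e (k + 1) 0 hc.1).1 (by linarith) (by linarith), mul_zero]

/-- The integer valued walk. -/
noncomputable def T (ξ : ℝ) (n : ℕ) : ℤ := (orb ξ 1 0 n).sum

theorem T_succ (n : ℕ) : T ξ (n + 1) = T ξ n + sg (((n : ℝ) + 1) * ξ) := by
  simp [T, orb_succ]

theorem walk_eq (n : ℕ) : walk (2 * ξ) n = T ξ n := by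
  induction n with
  | zero => simp [walk, T, orb]
  | succ n ih =>
    rw [T_succ, walk, Finset.sum_Icc_succ_top (by omega), ← walk, ih]
    push_cast
    rw [← zpow_eq_sg]
    congr 3
    ring

theorem sum_orb (e : ℤ) (n : ℕ) : (orb ξ e 0 n).sum = e * T ξ n := by
  induction n with
  | zero => simp [T, orb]
  | succ n ih => rw [T_succ, orb_succ, List.sum_append, ih]; simp; ring

theorem rec_orb_iff {e : ℤ} (he : e = 1 ∨ e = -1) (N : ℕ) :
    Rec (orb ξ e 0 N) ↔ ∀ m < N, e * T ξ m < e * T ξ N := by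
  rw [Rec, sum_orb]
  constructor
  · intro h m hm
    have := sum_take_le_mx (orb ξ e 0 N) m (by rwa [orb_length])
    rw [orb_take _ _ hm.le, sum_orb] at this
    omega
  · intro h
    rcases Nat.eq_zero_or_pos N with h0 | h0
    · subst h0; simp [orb, mx, T]
    · obtain ⟨m, hm, hm'⟩ := exists_mx (orb ξ e 0 N) (by
        intro x hx
        simp only [orb, List.mem_map] at hx
        obtain ⟨j, _, rfl⟩ := hx
        rcases sg_cases (0 + ((j : ℝ) + 1) * ξ) with h1 | h1 <;> rcases he with h2 | h2 <;>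
          simp only [h1, h2] <;> norm_num) (by
        intro h1
        have := orb_length (ξ := ξ) e 0 N
        rw [h1] at this
        simp at this
        omega)
      rw [orb_length] at hm
      rw [hm', orb_take _ _ hm.le, sum_orb]
      exact h m hm

theorem isRecord_iff (N : ℕ) :
    IsRecord (2 * ξ) N ↔ Rec (orb ξ 1 0 N) ∨ Rec (orb ξ (-1) 0 N) := by
  rw [rec_orb_iff (Or.inl rfl), rec_orb_iff (Or.inr rfl)]
  simp only [IsRecord, walk_eq, ne_eq, Int.cast_inj, one_mul, neg_mul, neg_lt_neg_iff]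
  constructor
  · intro h
    rcases le_total (T ξ 0) (T ξ N) with h0 | h0
    · left
      intro m
      induction m with
      | zero => intro hm; have := h 0 hm; omega
      | succ m ih =>
        intro hm
        have h1 := ih (by omega)
        have h2 := h (m + 1) hm
        have h3 := T_succ (ξ := ξ) m
        rcases sg_cases (((m : ℝ) + 1) * ξ) with h4 | h4 <;> omega
    · right
      intro m
      induction m with
      | zero => intro hm; have := h 0 hm; omega
      | succ m ih =>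
        intro hm
        have h1 := ih (by omega)
        have h2 := h (m + 1) hm
        have h3 := T_succ (ξ := ξ) m
        rcases sg_cases (((m : ℝ) + 1) * ξ) with h4 | h4 <;> omega
  · rintro (h | h) m hm
    · have := h m hm; omega
    · have := h m hm; omega

end Pool.Agent.Lib.MP_425be5_nt
end

-- part Pool.Agent.Lib.MP_425be5_nt.Main
section

/-!
Ostrowski representations as admissible words, and the main theorem.
-/

namespace Pool.Agent.Lib.MP_425be5_nt

variable {ξ : ℝ}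

theorem digit_cons_lt (b : ℕ) (w : List ℕ) {i : ℕ} (h : i < w.length) :
    digit (b :: w) i = digit w i := by
  simp only [digit, List.reverse_cons]
  rw [List.getD_append _ _ _ _ (by simpa using h)]

theorem digit_cons_eq (b : ℕ) (w : List ℕ) : digit (b :: w) w.length = b := by
  simp only [digit, List.reverse_cons]
  rw [List.getD_append_right _ _ _ _ (by simp)]
  simp

theorem digit_ge (w : List ℕ) {i : ℕ} (h : w.length ≤ i) : digit w i = 0 := by
  simp only [digit]
  rw [List.getD_eq_default _ _ (by simpa using h)]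

theorem sum_digit : ∀ w : List ℕ,
    ∑ i ∈ Finset.range w.length, digit w i * den ξ i = val (aa ξ) w
  | [] => by simp [val]
  | b :: w => by
    rw [List.length_cons, Finset.sum_range_succ, digit_cons_eq, val, Qn_eq, ← sum_digit w,
      add_comm]
    congr 1
    refine Finset.sum_congr rfl fun i hi => ?_
    rw [digit_cons_lt _ _ (Finset.mem_range.mp hi)]

theorem valid_iff {a : ℕ → ℕ} (ha : ∀ k, 1 ≤ a k) : ∀ w : List ℕ, Valid a w ↔
    (digit w 0 < a 0 ∧ (∀ i, 1 ≤ i → digit w i ≤ a i) ∧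
      (∀ i, 1 ≤ i → digit w i = a i → digit w (i - 1) = 0))
  | [] => by
    simp only [Valid, true_iff]
    refine ⟨?_, fun i _ => ?_, fun i _ _ => ?_⟩
    · rw [digit_ge _ (by simp)]; exact ha 0
    · rw [digit_ge _ (by simp)]; exact Nat.zero_le _
    · rw [digit_ge _ (by simp)]
  | [b] => by
    have h0 : digit [b] 0 = b := digit_cons_eq b []
    simp only [Valid, true_and, List.length_nil, List.head?_nil, h0]
    constructor
    · rintro ⟨h1, h2⟩
      refine ⟨?_, fun i hi => ?_, fun i hi h3 => ?_⟩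
      · rcases h1.lt_or_eq with h3 | h3
        · exact h3
        · simpa using h2 h3
      · rw [digit_ge _ (by simpa using hi)]; exact Nat.zero_le _
      · rw [digit_ge _ (by simpa using hi)] at h3
        have := ha i
        omega
    · rintro ⟨h1, _, _⟩
      exact ⟨h1.le, fun h => by omega⟩
  | b :: c :: w => by
    have ih := valid_iff ha (c :: w)
    have hlt : ∀ i, i < (c :: w).length → digit (b :: c :: w) i = digit (c :: w) i :=
      fun i hi => digit_cons_lt _ _ hi
    have heq : digit (b :: c :: w) (c :: w).length = b := digit_cons_eq _ _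
    have hc : digit (c :: w) w.length = c := digit_cons_eq _ _
    rw [Valid, ih]
    simp only [List.length_cons, List.head?_cons, Option.some.injEq] at *
    constructor
    · rintro ⟨⟨h1, h2, h3⟩, h4, h5⟩
      refine ⟨by rwa [hlt 0 (by omega)], fun i hi => ?_, fun i hi h6 => ?_⟩
      · rcases lt_trichotomy i (w.length + 1) with h7 | h7 | h7
        · rw [hlt i h7]; exact h2 i hi
        · rw [h7, heq]; exact h4
        · rw [digit_ge _ (by simp; omega)]; exact Nat.zero_le _
      · rcases lt_trichotomy i (w.length + 1) with h7 | h7 | h7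
        · rw [hlt i h7] at h6
          rw [hlt _ (by omega)]
          exact h3 i hi h6
        · rw [h7, heq] at h6
          rw [h7, hlt _ (by omega), Nat.add_sub_cancel, hc]
          exact h5 h6
        · rw [digit_ge _ (by simp; omega)] at h6
          have := ha i
          omega
    · rintro ⟨h1, h2, h3⟩
      refine ⟨⟨by rwa [hlt 0 (by omega)] at h1, fun i hi => ?_, fun i hi h6 => ?_⟩, ?_, fun h6 => ?_⟩
      · rcases lt_or_ge i (w.length + 1) with h7 | h7
        · rw [← hlt i h7]; exact h2 i hi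
        · rw [digit_ge _ (by simpa using h7)]; exact Nat.zero_le _
      · rcases lt_or_ge i (w.length + 1) with h7 | h7
        · rw [← hlt i h7] at h6
          rw [← hlt _ (by omega)]
          exact h3 i hi h6
        · rw [digit_ge _ (by simpa using h7)] at h6
          have := ha i
          omega
      · have := h2 (w.length + 1) (by omega)
        rwa [heq] at this
      · have := h3 (w.length + 1) (by omega) (by rwa [heq])
        rwa [hlt _ (by omega), Nat.add_sub_cancel, hc] at this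

theorem rep_iff (h : Irrational ξ) (N : ℕ) (w : List ℕ) : IsOstrowskiRep ξ N w ↔
    N = val (aa ξ) w ∧ Valid (aa ξ) w ∧ w.head? ≠ some 0 := by
  rw [IsOstrowskiRep, sum_digit, valid_iff (a := aa ξ) (one_le_pq h)]
  simp only [aa, zero_add]
  tauto

theorem exists_valid {a : ℕ → ℕ} (hQ : ∀ k, Qn a k ≤ Qn a (k + 1)) :
    ∀ k n, n < Qn a (k + 1) → ∃ w : List ℕ, w.length = k ∧ Valid a w ∧ val a w = n ∧
      (n < Qn a k → w.head? = some 0)
  | 0, n, h => ⟨[], rfl, trivial, by simp only [Qn, val] at *; omega, by simp [Qn]⟩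
  | k + 1, n, h => by
    have hk := hQ k
    rw [Qn] at h
    have hpos : 0 < Qn a (k + 1) := by
      by_contra h0
      have h1 : Qn a (k + 1) = 0 := by omega
      rw [h1] at h hk
      omega
    obtain ⟨w, h1, h2, h3, h4⟩ := exists_valid hQ k (n % Qn a (k + 1)) (Nat.mod_lt _ hpos)
    have hdm := Nat.div_add_mod n (Qn a (k + 1))
    refine ⟨(n / Qn a (k + 1)) :: w, by simp [h1], ⟨h2, ?_, fun h5 => h4 ?_⟩, ?_, fun h5 => ?_⟩
    · rw [h1]
      apply Nat.le_of_lt_succ
      rw [Nat.div_lt_iff_lt_mul hpos]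
      nlinarith
    · rw [h1] at h5
      rw [h5] at hdm
      nlinarith
    · rw [val, h1, h3]
      nlinarith
    · simp [Nat.div_eq_of_lt h5]

theorem exists_strip {a : ℕ → ℕ} : ∀ w : List ℕ, Valid a w →
    ∃ w' : List ℕ, Valid a w' ∧ val a w' = val a w ∧ w'.head? ≠ some 0
  | [], _ => ⟨[], trivial, rfl, by simp⟩
  | b :: w, h => by
    by_cases hb : b = 0
    · obtain ⟨w', h1, h2, h3⟩ := exists_strip w h.1
      exact ⟨w', h1, by simp [h2, val, hb], h3⟩
    · exact ⟨b :: w, h, rfl, by simpa using hb⟩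

theorem valid_bound {a : ℕ → ℕ} {A : ℕ} (hA : ∀ k, a k ≤ A) : ∀ w : List ℕ, Valid a w →
    ∀ b ∈ w, b < A + 1
  | [], _, b, hb => by simp at hb
  | c :: w, h, b, hb => by
    rcases List.mem_cons.mp hb with h1 | h1
    · have := h.2.1
      have := hA w.length
      omega
    · exact valid_bound hA w h.1 b h1

theorem exists_fin {B : ℕ} : ∀ w : List ℕ, (∀ b ∈ w, b < B) →
    ∃ w' : List (Fin B), w'.map Fin.val = w
  | [], _ => ⟨[], rfl⟩
  | c :: w, h => by
    obtain ⟨w', hw'⟩ := exists_fin w (fun b hb => h b (List.mem_cons_of_mem _ hb))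
    exact ⟨⟨c, h c (by simp)⟩ :: w', by simp [hw']⟩

theorem iterate_eq (k : ℕ) :
    (fun x : ℝ => (Int.fract x)⁻¹)^[k] (cq ξ 1) = cq ξ (k + 1) := by
  induction k with
  | zero => rfl
  | succ k ih => rw [Function.iterate_succ_apply', ih]; rfl

theorem aseq_eq : aseq (fun x : ℝ => ⌊x⌋₊) (fun x : ℝ => (Int.fract x)⁻¹) (cq ξ 1) = aa ξ := by
  funext k
  simp only [aseq, iterate_eq]
  rfl

theorem exists_regular (h : Irrational ξ) (hfin : (Set.range fun k => cq ξ (k + 1)).Finite)
    {A : ℕ} (hA : ∀ k, aa ξ k ≤ A) {e : ℤ} (he : e = 1 ∨ e = -1) :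
    ∃ L : Language ℕ, L.IsRegular ∧ ∀ w : List ℕ, Valid (aa ξ) w → w.head? ≠ some 0 →
      (w ∈ L ↔ Rec (orb ξ e 0 (val (aa ξ) w))) := by
  have ha : ∀ k, 1 ≤ aseq (fun x : ℝ => ⌊x⌋₊) (fun x : ℝ => (Int.fract x)⁻¹) (cq ξ 1) k := by
    rw [aseq_eq]; exact one_le_pq h
  have hA' : ∀ k, aseq (fun x : ℝ => ⌊x⌋₊) (fun x : ℝ => (Int.fract x)⁻¹) (cq ξ 1) k ≤ A := by
    rw [aseq_eq]; exact hA
  refine ⟨_, (isRegular_aut (C := 2 * A + 6) ha he hA' (by positivity)
    (by simpa only [iterate_eq] using hfin)).reverse, fun w hv hh => ?_⟩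
  have h1 := accepts_iff ha he hA' w (by rw [aseq_eq]; exact hv) hh
  rw [aseq_eq] at h1
  rw [Language.mem_reverse, h1]
  cases w with
  | nil => simp [val, orb]
  | cons b w =>
    have h2 := (val_lt (a := aa ξ) (one_le_pq h) (b :: w) hv).1
    rw [Qn_eq] at h2
    rw [List.length_cons, ← orb_zero h, orb_take (N := Q ξ (w.length + 2)) _ _ h2.le]

theorem main (h : Irrational ξ) (a b c : ℤ) (ha : a ≠ 0)
    (hq : (a : ℝ) * ξ ^ 2 + b * ξ + c = 0) :
    OstrowskiAutomatic ξ {r | IsRecord (2 * ξ) r} := by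
  have hfin := finite_cq h a b c ha hq
  obtain ⟨A, hA⟩ : ∃ A : ℕ, ∀ k, aa ξ k ≤ A := by
    obtain ⟨A, hA⟩ := (hfin.image (fun x : ℝ => ⌊x⌋₊)).bddAbove
    exact ⟨A, fun k => hA ⟨_, ⟨k, rfl⟩, rfl⟩⟩
  obtain ⟨L1, h1, h1'⟩ := exists_regular h hfin hA (Or.inl rfl)
  obtain ⟨L2, h2, h2'⟩ := exists_regular h hfin hA (Or.inr rfl)
  obtain ⟨σ, hσ, M, hM⟩ := h1.add h2
  refine ⟨A + 1, σ, hσ, M.comap Fin.val, fun N => ⟨?_, fun w hw => ?_⟩⟩
  · have hQ : ∀ k, Qn (aa ξ) k ≤ Qn (aa ξ) (k + 1) := by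
      intro k; rw [Qn_eq, Qn_eq]; exact Q_le_succ h k
    obtain ⟨w, _, h3, h4, _⟩ := exists_valid hQ (N + 1) N (by
      rw [Qn_eq]; exact le_Q h (N + 1))
    obtain ⟨w', h5, h6, h7⟩ := exists_strip w h3
    obtain ⟨w'', h8⟩ := exists_fin w' (valid_bound hA w' h5)
    exact ⟨w'', by rw [h8, rep_iff h]; exact ⟨by rw [h6, h4], h5, h7⟩⟩
  · obtain ⟨h3, h4, h5⟩ := (rep_iff h _ _).mp hw
    rw [DFA.accepts_comap, hM]
    show w.map Fin.val ∈ L1 + L2 ↔ IsRecord (2 * ξ) N
    rw [isRecord_iff, h3, ← h1' _ h4 h5, ← h2' _ h4 h5]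
    exact Language.mem_add _ _ _

end Pool.Agent.Lib.MP_425be5_nt
end
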